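import Pool.Agent.X302.TR.Stm

set_option autoImplicit false

namespace Pool.Agent.X275.TR

open Filter Topology Pool.Agent.X302.TR

theorem lim_of_bdd {n : ℕ} (U : Ultrafilter ℕ) (x : ℕ → V n) (R : ℝ)
    (h : ∀ᶠ k in (U : Filter ℕ), ‖x k‖ ≤ R) : ∃ y0, Tendsto x (U : Filter ℕ) (𝓝 y0) := by
  have hc : IsCompact (Metric.closedBall (0 : V n) R) := isCompact_closedBall 0 R
  obtain ⟨y0, -, hy⟩ := hc.ultrafilter_le_nhds (U.map x) (by
    rw [Ultrafilter.coe_map, le_principal_iff, mem_map]
    filter_upwards [h] with k hk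
    simpa using hk)
  exact ⟨y0, hy⟩

theorem flag_aux (n : ℕ) (U : Ultrafilter ℕ) : ∀ (N : ℕ) (W : Submodule ℝ (V n)), Module.finrank ℝ W ≤ N →
    ∀ x : ℕ → V n, (∀ᶠ k in (U : Filter ℕ), x k ∈ W) →
  ∃ (m : ℕ) (d : ℕ → V n) (lam : ℕ → ℕ → ℝ) (y : ℕ → V n) (y0 : V n),
    (∀ᶠ k in (U : Filter ℕ), x k = ∑ i ∈ Finset.range m, lam i k • d i + y k) ∧
    (∀ i < m, Tendsto (lam i) U atTop) ∧
    (∀ i, i + 1 < m → Tendsto (fun k => lam (i + 1) k / lam i k) U (𝓝 0)) ∧
    (0 < m → d 0 ≠ 0) ∧ Tendsto y U (𝓝 y0) ∧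
    (0 < m → ∀ᶠ k in (U : Filter ℕ), lam 0 k ≤ 2 * ‖x k‖) := by
  intro N
  induction N with
  | zero =>
    intro W hW x hx
    have hbot : W = ⊥ := Submodule.finrank_eq_zero.mp (Nat.le_zero.mp hW)
    have hb : ∀ᶠ k in (U : Filter ℕ), ‖x k‖ ≤ 0 := by
      filter_upwards [hx] with k hk
      rw [hbot, Submodule.mem_bot] at hk
      rw [hk]; simp
    obtain ⟨y0, hy⟩ := lim_of_bdd U x 0 hb
    exact ⟨0, fun _ => 0, fun _ _ => 0, x, y0, by simp, by simp, by simp, by simp, hy, by simp⟩
  | succ N ih =>
    intro W hW x hx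
    by_cases hb : ∃ R, ∀ᶠ k in (U : Filter ℕ), ‖x k‖ ≤ R
    · obtain ⟨R, hR⟩ := hb
      obtain ⟨y0, hy⟩ := lim_of_bdd U x R hR
      exact ⟨0, fun _ => 0, fun _ _ => 0, x, y0, by simp, by simp, by simp, by simp, hy, by simp⟩
    · push Not at hb
      have hT : Tendsto (fun k => ‖x k‖) (U : Filter ℕ) atTop := by
        rw [tendsto_atTop]
        intro R
        filter_upwards [hb R] with k hk
        exact hk.le
      have hpos : ∀ᶠ k in (U : Filter ℕ), 0 < ‖x k‖ := hT.eventually_gt_atTop 0
      set u : ℕ → V n := fun k => (‖x k‖)⁻¹ • x k with hu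
      have hu1 : ∀ᶠ k in (U : Filter ℕ), ‖u k‖ = 1 := by
        filter_upwards [hpos] with k hk
        rw [hu]
        simp only [norm_smul, norm_inv, norm_norm]
        exact inv_mul_cancel₀ hk.ne'
      obtain ⟨d0, hd0⟩ := lim_of_bdd U u 1 (hu1.mono fun k hk => hk.le)
      have hn0 : ‖d0‖ = 1 := by
        have h1 : Tendsto (fun k => ‖u k‖) (U : Filter ℕ) (𝓝 ‖d0‖) := hd0.norm
        have h2 : Tendsto (fun k => ‖u k‖) (U : Filter ℕ) (𝓝 1) := by
          refine tendsto_const_nhds.congr' ?_
          filter_upwards [hu1] with k hk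
          exact hk.symm
        exact tendsto_nhds_unique h1 h2
      have hd0ne : d0 ≠ 0 := by
        intro h
        rw [h, norm_zero] at hn0
        exact zero_ne_one hn0
      have hd0W : d0 ∈ W := by
        have hcl : IsClosed (W : Set (V n)) := Submodule.closed_of_finiteDimensional W
        refine hcl.mem_of_tendsto hd0 ?_
        filter_upwards [hx] with k hk
        exact W.smul_mem _ hk
      obtain ⟨φ, hφ1, hφ2⟩ := exists_dual_vector ℝ d0 (by rw [hn0]; exact one_ne_zero)
      have hφd : φ d0 = 1 := by rw [hφ2, hn0]; simp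
      have hφu : Tendsto (fun k => φ (u k)) (U : Filter ℕ) (𝓝 1) := by
        have := (φ.continuous.tendsto d0).comp hd0
        rw [hφd] at this
        exact this
      have hφx : ∀ᶠ k in (U : Filter ℕ), φ (x k) = φ (u k) * ‖x k‖ := by
        filter_upwards [hpos] with k hk
        rw [hu]
        simp only [map_smul, smul_eq_mul]
        field_simp
      have hφT : Tendsto (fun k => φ (x k)) (U : Filter ℕ) atTop := by
        have := hφu.pos_mul_atTop one_pos hT
        refine this.congr' ?_
        filter_upwards [hφx] with k hk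
        exact hk.symm
      set x' : ℕ → V n := fun k => x k - φ (x k) • d0 with hx'
      set W' : Submodule ℝ (V n) := W ⊓ LinearMap.ker (φ : V n →ₗ[ℝ] ℝ) with hW'
      have hlt : W' < W := by
        refine lt_of_le_of_ne inf_le_left ?_
        intro h
        have : d0 ∈ W' := by rw [h]; exact hd0W
        have h2 : d0 ∈ LinearMap.ker (φ : V n →ₗ[ℝ] ℝ) := this.2
        rw [LinearMap.mem_ker] at h2
        have h3 : φ d0 = 0 := h2
        rw [hφd] at h3
        exact one_ne_zero h3
      have hfr : Module.finrank ℝ W' ≤ N := by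
        have := Submodule.finrank_lt_finrank_of_lt hlt
        omega
      have hx'W : ∀ᶠ k in (U : Filter ℕ), x' k ∈ W' := by
        filter_upwards [hx] with k hk
        refine ⟨W.sub_mem hk (W.smul_mem _ hd0W), ?_⟩
        rw [SetLike.mem_coe, LinearMap.mem_ker]
        show φ (x' k) = 0
        rw [hx']
        simp only [map_sub, map_smul, hφd, smul_eq_mul, mul_one, sub_self]
      obtain ⟨m, d, lam, y, y0, h1, h2, h3, h4, h5, h6⟩ := ih W' hfr x' hx'W
      refine ⟨m + 1, fun i => Nat.casesOn i d0 d, fun i => Nat.casesOn i (fun k => φ (x k)) lam, y, y0,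
        ?_, ?_, ?_, ?_, h5, ?_⟩
      · filter_upwards [h1] with k hk
        rw [Finset.sum_range_succ']
        have : x k = x' k + φ (x k) • d0 := by rw [hx']; simp
        rw [this, hk]
        simp only
        rw [add_right_comm]
        congr 2
      · intro i hi
        cases i with
        | zero => exact hφT
        | succ i => exact h2 i (by omega)
      · intro i hi
        cases i with
        | zero =>
          have hm : 0 < m := by omega
          show Tendsto (fun k => lam 0 k / φ (x k)) (U : Filter ℕ) (𝓝 0)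
          have hx'u : Tendsto (fun k => ‖u k - φ (u k) • d0‖) (U : Filter ℕ) (𝓝 0) := by
            have h8 : Tendsto (fun k => u k - φ (u k) • d0) (U : Filter ℕ) (𝓝 (d0 - (1 : ℝ) • d0)) :=
              hd0.sub (hφu.smul_const d0)
            have h9 := h8.norm
            simpa using h9
          have hup : Tendsto (fun k => 2 * ‖u k - φ (u k) • d0‖ / φ (u k)) (U : Filter ℕ) (𝓝 0) := by
            have h8 := (hx'u.const_mul 2).div hφu one_ne_zero
            simp only [mul_zero, zero_div] at h8
            exact h8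
          refine tendsto_of_tendsto_of_tendsto_of_le_of_le' tendsto_const_nhds hup ?_ ?_
          · filter_upwards [(h2 0 hm).eventually_ge_atTop 0, hφT.eventually_gt_atTop 0] with k hk1 hk2
            exact div_nonneg hk1 hk2.le
          · filter_upwards [h6 hm, hφT.eventually_gt_atTop 0, hpos, hφx] with k hk1 hk2 hk3 hk4
            have hup1 : 0 < φ (u k) := by
              rw [hk4] at hk2
              exact (pos_iff_pos_of_mul_pos hk2).mpr hk3
            rw [div_le_div_iff₀ hk2 hup1]
            have hxx : x' k = ‖x k‖ • (u k - φ (u k) • d0) := by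
              rw [hx', hu]
              simp only [map_smul, smul_eq_mul, smul_sub, smul_smul]
              rw [mul_inv_cancel₀ hk3.ne', one_smul, ← mul_assoc, mul_inv_cancel₀ hk3.ne', one_mul]
            have hnx : ‖x' k‖ = ‖x k‖ * ‖u k - φ (u k) • d0‖ := by
              rw [hxx, norm_smul, norm_norm]
            rw [hnx] at hk1
            calc lam 0 k * φ (u k) ≤ (2 * (‖x k‖ * ‖u k - φ (u k) • d0‖)) * φ (u k) :=
                  mul_le_mul_of_nonneg_right hk1 hup1.le
              _ = 2 * ‖u k - φ (u k) • d0‖ * φ (x k) := by rw [hk4]; ring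
        | succ i => exact h3 i (by omega)
      · intro _
        exact hd0ne
      · intro _
        filter_upwards with k
        show φ (x k) ≤ 2 * ‖x k‖
        have h8 : φ (x k) ≤ ‖φ (x k)‖ := le_trans (le_abs_self _) (le_of_eq (Real.norm_eq_abs _).symm)
        have h9 := φ.le_opNorm (x k)
        rw [hφ1] at h9
        have := norm_nonneg (x k)
        linarith

theorem t_FLAG : Pool.Agent.X302.TR.S_FLAG := by
  intro n U x
  obtain ⟨m, d, lam, y, y0, h1, h2, h3, h4, h5, -⟩ := flag_aux n U (Module.finrank ℝ (⊤ : Submodule ℝ (V n)))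
    ⊤ le_rfl x (Filter.Eventually.of_forall fun _ => trivial)
  exact ⟨m, d, lam, y, y0, h1, h2, h3, h4, h5⟩

end Pool.Agent.X275.TR
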